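import Pool.Agent.H95.FJ.Defs

open MvPolynomial

namespace H12.FJ
open H95.FG H95.FI H95.FJ

theorem exmax {α : Type} [Nonempty α] (f : α → ℕ) (B : ℕ) (hB : ∀ z, f z ≤ B) : ∃ z, ∀ z', f z' ≤ f z := by
  have h1 : (Set.range f).Nonempty := Set.range_nonempty f
  have h2 : BddAbove (Set.range f) := ⟨B, by rintro _ ⟨z, rfl⟩; exact hB z⟩
  obtain ⟨z, hz⟩ := Nat.sSup_mem h1 h2
  exact ⟨z, fun z' => by rw [hz]; exact le_csSup h2 ⟨z', rfl⟩⟩

theorem sub {n : ℕ} {ι : Type} [Finite ι] (v : ι → Vn n) (e : ℕ)
    (he : Module.finrank ℂ (Submodule.span ℂ (Set.range v)) = e) :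
    ∃ i : Fin e → ι, LinearIndependent ℂ (fun j => v (i j)) := by
  obtain ⟨κ, a, ha, hspan, hli⟩ := exists_linearIndependent' ℂ v
  haveI : Finite κ := Finite.of_injective a ha
  haveI := Fintype.ofFinite κ
  have hc : Fintype.card κ = e := by rw [← he, ← hspan, finrank_span_eq_card hli]
  let eqv := (Fintype.equivFinOfCardEq hc).symm
  exact ⟨fun j => a (eqv j), hli.comp eqv eqv.injective⟩

theorem lefin {n e : ℕ} (W : Submodule ℂ (Vn n)) (v : Fin e → Vn n) (hv : ∀ j, v j ∈ W)
    (hli : LinearIndependent ℂ v) : e ≤ Module.finrank ℂ W := by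
  have h : LinearIndependent ℂ (fun j => (⟨v j, hv j⟩ : W)) := by
    apply LinearIndependent.of_comp W.subtype
    exact hli
  have := h.fintype_card_le_finrank
  simpa using this

theorem evp {n : ℕ} (f : Fin n → Polynomial ℂ) (p : MvPolynomial (Fin n) ℂ) (t : ℂ) :
    Polynomial.eval t (MvPolynomial.aeval f p) = MvPolynomial.eval (fun i => (f i).eval t) p := by
  induction p using MvPolynomial.induction_on with
  | C a => simp
  | add p q hp hq => simp [hp, hq]
  | mul_X p i hp => simp [hp]

/-- cofinitely many points of a line keep the independence -/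
theorem line (hS : S_SEMP) {n q s : ℕ} (T : Fin s → (Vn n →ₗ[ℂ] Vn n)) (i : Fin q → Fin s) (z w : Vn n)
    (h : LinearIndependent ℂ (fun j => T (i j) z)) :
    {t : ℂ | ¬ LinearIndependent ℂ (fun j => T (i j) (z + t • (w - z)))}.Finite := by
  have := hS n q (fun j k => Polynomial.C (T (i j) z k) + Polynomial.X * Polynomial.C (T (i j) (w - z) k)) 0
    (by simpa using h)
  refine this.subset ?_
  intro t ht
  simp only [Set.mem_setOf_eq] at ht ⊢
  intro h2
  apply ht
  convert h2 using 2 with j
  funext k
  simp [map_add, map_smul]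

theorem t_MXE (hS : S_SEMP) : S_MXE := by
  intro n r T h hh hrel
  obtain ⟨ze, hze⟩ := exmax (fun z : Vn n => Module.finrank ℂ (EE T z)) n (fun z => by
    have := Submodule.finrank_le (EE T z)
    simpa using this)
  obtain ⟨zr, hzr⟩ := exmax (fun z : Vn n => Module.finrank ℂ (LinearMap.range (TT T (hv h z)))) n (fun z => by
    have := Submodule.finrank_le (LinearMap.range (TT T (hv h z)))
    simpa using this)
  obtain ⟨e, he⟩ : ∃ e, e = Module.finrank ℂ (EE T ze) := ⟨_, rfl⟩
  obtain ⟨ρ, hρ⟩ : ∃ ρ, ρ = Module.finrank ℂ (LinearMap.range (TT T (hv h zr))) := ⟨_, rfl⟩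
  obtain ⟨i, hi⟩ := sub (fun a => T a ze) e he.symm
  -- e ≤ r
  have her : e ≤ r := by
    by_contra hcon
    push Not at hcon
    have hinj : Function.Injective i := by
      intro a b hab
      by_contra hne
      exact hne (hi.injective (by simp only [hab]))
    have hcard : e = r + 1 := by
      have := Fintype.card_le_of_injective i hinj
      simp at this
      omega
    subst hcard
    have hbij : Function.Bijective i := (Fintype.bijective_iff_injective_and_card i).mpr ⟨hinj, rfl⟩
    have h0 : h 0 ≠ 0 := hh.ne_zero 0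
    obtain ⟨w, hw⟩ : ∃ w, eval w (h 0) ≠ 0 := by
      by_contra hc
      push Not at hc
      exact h0 (MvPolynomial.funext (fun w => by rw [hc w, map_zero]))
    have hfin := line hS T i ze w hi
    let P : Polynomial ℂ := MvPolynomial.aeval (fun k => Polynomial.C (ze k) + Polynomial.X * Polynomial.C (w k - ze k)) (h 0)
    have hP : ∀ t, P.eval t = eval (ze + t • (w - ze)) (h 0) := by
      intro t
      simp only [P]
      rw [evp]
      congr 2
      funext k
      simp
    have hP0 : P ≠ 0 := by
      intro hP0
      apply hw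
      have := hP 1
      rw [hP0] at this
      simpa using this.symm
    have hroots : {t : ℂ | P.eval t = 0}.Finite := by
      refine (P.roots.toFinset.finite_toSet).subset ?_
      intro t ht
      simp only [Set.mem_setOf_eq] at ht
      simp [Polynomial.mem_roots hP0, Polynomial.IsRoot, ht]
    obtain ⟨t, ht⟩ := (hfin.union hroots).infinite_compl.nonempty
    simp only [Set.mem_compl_iff, Set.mem_union, Set.mem_setOf_eq, not_or, not_not] at ht
    obtain ⟨ht1, ht2⟩ := ht
    have hrel' := hrel (ze + t • (w - ze))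
    have hli : LinearIndependent ℂ (fun a => T a (ze + t • (w - ze))) := by
      have := ht1.comp (Equiv.ofBijective i hbij).symm (Equiv.injective _)
      convert this using 2 with a
      exact congrArg (fun b => (T b) (ze + t • (w - ze))) ((Equiv.ofBijective i hbij).apply_symm_apply a).symm
    have hz := Fintype.linearIndependent_iff.mp hli (hv h (ze + t • (w - ze))) (by
      rw [← hrel']
      simp [TT, LinearMap.sum_apply])
    apply ht2
    rw [hP]
    exact hz 0
  -- the common point
  have hfin1 := line hS T i ze zr hi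
  let b := Module.finBasisOfFinrankEq ℂ (LinearMap.range (TT T (hv h zr))) hρ.symm
  have hbx : ∀ j, ∃ x, TT T (hv h zr) x = (b j : Vn n) := fun j => (b j).2
  choose x hx using hbx
  have hlib : LinearIndependent ℂ (fun j => TT T (hv h zr) (x j)) := by
    have h1 := b.linearIndependent.map' (LinearMap.range (TT T (hv h zr))).subtype
      (Submodule.ker_subtype _)
    have e1 : (fun j => TT T (hv h zr) (x j)) = ((LinearMap.range (TT T (hv h zr))).subtype ∘ b) := by
      funext j
      exact hx j
    rw [e1]
    exact h1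
  let Q : Fin (r + 1) → Polynomial ℂ := fun a =>
    MvPolynomial.aeval (fun k => Polynomial.C (ze k) + Polynomial.X * Polynomial.C (zr k - ze k)) (h a)
  have hQ : ∀ a t, (Q a).eval t = eval (ze + t • (zr - ze)) (h a) := by
    intro a t
    simp only [Q]
    rw [evp]
    congr 2
    funext k
    simp
  have hval : ∀ t j k, (∑ a, Q a * Polynomial.C (T a (x j) k)).eval t =
      TT T (hv h (ze + t • (zr - ze))) (x j) k := by
    intro t j k
    rw [Polynomial.eval_finset_sum]
    simp only [Polynomial.eval_mul, Polynomial.eval_C, hQ]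
    simp [TT, hv, LinearMap.sum_apply, Finset.sum_apply]
  have hfin2 := hS n ρ (fun j k => ∑ a, Q a * Polynomial.C (T a (x j) k)) 1 (by
    convert hlib using 2 with j
    funext k
    rw [hval 1 j k]
    simp)
  obtain ⟨t, ht⟩ := (hfin1.union hfin2).infinite_compl.nonempty
  simp only [Set.mem_compl_iff, Set.mem_union, Set.mem_setOf_eq, not_or, not_not] at ht
  obtain ⟨ht1, ht2⟩ := ht
  refine ⟨ze + t • (zr - ze), e, ρ, her, fun z => by rw [he]; exact hze z, ?_, fun z => by rw [hρ]; exact hzr z, ?_⟩
  · refine lefin _ _ (fun j => ?_) ht1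
    exact Submodule.subset_span ⟨i j, rfl⟩
  · apply le_antisymm
    · rw [hρ]; exact hzr _
    · refine lefin _ (fun j => TT T (hv h (ze + t • (zr - ze))) (x j)) (fun j => ⟨x j, rfl⟩) ?_
      convert ht2 using 2 with j
      funext k
      exact (hval t j k).symm

end H12.FJ
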